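import Pool.Agent.H438Z.FC.Main

open MeasureTheory Pool.Agent.H438Z.FC
open scoped RealInnerProductSpace

/-- Partial data uniqueness in the inverse fractional conductivity problem for uniformly elliptic
bounded measurable conductivities. -/
theorem Pool.Agent.Results.MP_72af2c_an.AUniqueness.result
    (n : ℕ) (s : ℝ) (hs0 : 0 < s) (hs1 : s < 1) (Ω : Set (E n)) (hΩ : IsOpen Ω)
    (hbd : ∃ e : E n, ‖e‖ = 1 ∧ ∃ r : ℝ, ∀ x ∈ Ω, |⟪e, x⟫| ≤ r)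
    (γ₁ γ₂ : E n → ℝ) (h₁ : UnifElliptic γ₁) (h₂ : UnifElliptic γ₂)
    (W : Set (E n)) (hW : IsOpen W) (hne : W.Nonempty) (hWΩ : W ⊆ (closure Ω)ᶜ)
    (hDN : ∀ f g : E n → ℝ, IsTest W f → IsTest W g → ∀ u₁ u₂ : E n → ℝ,
      IsSol s Ω γ₁ f u₁ → IsSol s Ω γ₂ f u₂ → bform s γ₁ u₁ g = bform s γ₂ u₂ g) :
    γ₁ =ᵐ[volume] γ₂ :=
  calderon s hs0 hs1 Ω hΩ hbd γ₁ γ₂ h₁ h₂ W hW hne hWΩ hDN
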